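import Pool.Agent.BEL.StmtsP

/-!
# Squad BEL, row TRN: translations
-/

set_option autoImplicit false

open MeasureTheory
open Pool.Agent.BE01

namespace Pool.Agent.BEL.H76

/-- Cauchy-Schwarz on the unit interval -/
theorem sq_le (u : ℝ → ℝ) (hu : Continuous u) :
    (∫ s in (0 : ℝ)..1, u s) ^ 2 ≤ ∫ s in (0 : ℝ)..1, u s ^ 2 := by
  obtain ⟨c, hc⟩ : ∃ c, c = ∫ s in (0 : ℝ)..1, u s := ⟨_, rfl⟩
  have h0 : 0 ≤ ∫ s in (0 : ℝ)..1, (u s - c) ^ 2 :=
    intervalIntegral.integral_nonneg zero_le_one fun s _ => sq_nonneg _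
  have e : ∀ s, (u s - c) ^ 2 = u s ^ 2 - 2 * c * u s + c ^ 2 := fun s => by ring
  have i1 : IntervalIntegrable (fun s => u s ^ 2) volume 0 1 :=
    (hu.pow 2).intervalIntegrable _ _
  have i2 : IntervalIntegrable (fun s => 2 * c * u s) volume 0 1 :=
    (continuous_const.mul hu).intervalIntegrable _ _
  have i3 : IntervalIntegrable (fun _ : ℝ => c ^ 2) volume 0 1 :=
    continuous_const.intervalIntegrable _ _
  simp only [e] at h0
  rw [intervalIntegral.integral_add (i1.sub i2) i3, intervalIntegral.integral_sub i1 i2,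
    intervalIntegral.integral_const_mul, intervalIntegral.integral_const, ← hc] at h0
  rw [← hc]
  simp only [sub_zero, smul_eq_mul, one_mul] at h0
  nlinarith

theorem pointwise (d : ℕ) (ψ : En d → ℝ) (hψ : ContDiff ℝ ((⊤ : ℕ∞) : WithTop ℕ∞) ψ)
    (x y : En d) : (ψ x - ψ (x - y)) ^ 2 ≤
      ‖y‖ ^ 2 * ∫ s in (0 : ℝ)..1, ‖gradient ψ (x - s • y)‖ ^ 2 := by
  have hd : Differentiable ℝ ψ := hψ.differentiable (by simp)
  have hcf : Continuous (fderiv ℝ ψ) := hψ.continuous_fderiv (by simp)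
  have hcg : Continuous (gradient ψ) := by
    unfold gradient
    exact (LinearIsometryEquiv.continuous _).comp hcf
  have hl : Continuous fun s : ℝ => x - s • y := by fun_prop
  have hg : ∀ s : ℝ, HasDerivAt (fun s : ℝ => ψ (x - s • y))
      (-(fderiv ℝ ψ (x - s • y) y)) s := by
    intro s
    have h1 : HasDerivAt (fun s : ℝ => x - s • y) (-y) s := by
      have h2 : HasDerivAt (fun s : ℝ => s • y) y s := by
        simpa using (hasDerivAt_id s).smul_const y
      simpa using h2.const_sub x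
    have h3 := (hd (x - s • y)).hasFDerivAt.comp_hasDerivAt s h1
    rw [map_neg] at h3
    exact h3
  have hcu : Continuous fun s : ℝ => fderiv ℝ ψ (x - s • y) y :=
    (hcf.comp hl).clm_apply continuous_const
  have h4 : ∫ s in (0 : ℝ)..1, -(fderiv ℝ ψ (x - s • y) y) = ψ (x - y) - ψ x := by
    have h5 := intervalIntegral.integral_eq_sub_of_hasDerivAt (a := 0) (b := 1)
      (fun s _ => hg s) (hcu.neg.intervalIntegrable _ _)
    simpa using h5
  have h6 : ψ x - ψ (x - y) = ∫ s in (0 : ℝ)..1, fderiv ℝ ψ (x - s • y) y := by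
    rw [intervalIntegral.integral_neg] at h4
    linarith
  rw [h6]
  refine (sq_le _ hcu).trans ?_
  rw [← intervalIntegral.integral_const_mul]
  refine intervalIntegral.integral_mono_on zero_le_one ((hcu.pow 2).intervalIntegrable _ _)
    ((continuous_const.mul ((hcg.comp hl).norm.pow 2)).intervalIntegrable _ _) ?_
  intro s _
  have h7 : fderiv ℝ ψ (x - s • y) y = inner ℝ (gradient ψ (x - s • y)) y := by
    unfold gradient
    rw [InnerProductSpace.toDual_symm_apply]
  rw [h7]
  have h8 := abs_real_inner_le_norm (gradient ψ (x - s • y)) y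
  have h9 := sq_le_sq' (by
    have := neg_abs_le (inner ℝ (gradient ψ (x - s • y)) y)
    linarith) ((le_abs_self _).trans h8)
  calc (inner ℝ (gradient ψ (x - s • y)) y) ^ 2 ≤ (‖gradient ψ (x - s • y)‖ * ‖y‖) ^ 2 := h9
    _ = ‖y‖ ^ 2 * ‖gradient ψ (x - s • y)‖ ^ 2 := by ring

/-- TRN -/
theorem trn : TrnStmt := by
  intro d ψ hψ hsupp y
  have hd : Differentiable ℝ ψ := hψ.differentiable (by simp)
  have hcf : Continuous (fderiv ℝ ψ) := hψ.continuous_fderiv (by simp)
  have hcg : Continuous (gradient ψ) := by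
    unfold gradient
    exact (LinearIsometryEquiv.continuous _).comp hcf
  obtain ⟨g, hg⟩ : ∃ g : En d → ℝ, g = fun x => ‖gradient ψ x‖ ^ 2 := ⟨_, rfl⟩
  have hgc : Continuous g := by
    rw [hg]
    exact hcg.norm.pow 2
  have hgs : HasCompactSupport g := by
    have h1 : HasCompactSupport (fderiv ℝ ψ) := hsupp.fderiv (𝕜 := ℝ)
    refine h1.mono ?_
    intro x hx h0
    apply hx
    rw [hg]
    show ‖gradient ψ x‖ ^ 2 = 0
    unfold gradient
    rw [h0]
    simp
  have hgi : Integrable g := hgc.integrable_of_hasCompactSupport hgs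
  obtain ⟨ν, hν⟩ : ∃ ν : Measure ℝ, ν = volume.restrict (Set.Ioc (0 : ℝ) 1) := ⟨_, rfl⟩
  have hνf : IsFiniteMeasure ν := by
    rw [hν]
    infer_instance
  have hF : Continuous fun p : En d × ℝ => g (p.1 - p.2 • y) := by fun_prop
  have hconst : ∀ s : ℝ, ∫ x, g (x - s • y) = ∫ x, g x := fun s =>
    integral_sub_right_eq_self g (s • y)
  have hFi : Integrable (fun p : En d × ℝ => g (p.1 - p.2 • y)) ((volume : Measure (En d)).prod ν) := by
    refine (integrable_prod_iff' hF.aestronglyMeasurable).2 ⟨?_, ?_⟩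
    · exact Filter.Eventually.of_forall fun s => hgi.comp_sub_right (s • y)
    · have h2 : (fun s : ℝ => ∫ x, ‖g (x - s • y)‖) = fun _ => ∫ x, ‖g x‖ := by
        funext s
        exact integral_sub_right_eq_self (fun x => ‖g x‖) (s • y)
      rw [h2]
      exact integrable_const _
  have hswap : ∫ x : En d, (∫ s, g (x - s • y) ∂ν) = ∫ s, (∫ x : En d, g (x - s • y)) ∂ν :=
    integral_integral_swap hFi
  have hval : ∫ x : En d, ∫ s, g (x - s • y) ∂ν = ∫ x, g x := by
    rw [hswap]
    simp only [hconst]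
    rw [integral_const, hν]
    simp
  have hpt : ∀ x : En d, (ψ x - ψ (x - y)) ^ 2 ≤ ‖y‖ ^ 2 * ∫ s, g (x - s • y) ∂ν := by
    intro x
    have h1 := pointwise d ψ hψ x y
    rw [intervalIntegral.integral_of_le zero_le_one] at h1
    rw [hν, hg]
    exact h1
  have hint2 : Integrable fun x : En d => ∫ s, g (x - s • y) ∂ν := hFi.integral_prod_left
  calc ∫ x, (ψ x - ψ (x - y)) ^ 2 ≤ ∫ x : En d, ‖y‖ ^ 2 * ∫ s, g (x - s • y) ∂ν := by
        refine integral_mono_of_nonneg (Filter.Eventually.of_forall fun x => sq_nonneg _)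
          (hint2.const_mul _) (Filter.Eventually.of_forall hpt)
    _ = ‖y‖ ^ 2 * ∫ x, ‖gradient ψ x‖ ^ 2 := by
        rw [integral_const_mul, hval, hg]

end Pool.Agent.BEL.H76
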